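import Pool.Agent.W852.FG.Stms

/-!
# FG-LIM: from the cut processes to transience
-/

namespace Pool.Agent.W363.FG

open MeasureTheory ProbabilityTheory Filter FrogGW
open scoped ENNReal NNReal Classical

theorem hit_mono (Z : Env) {N N' : ℕ} (hN : N ≤ N') (m : ℕ) : ∀ (m' : ℕ) (x : List ℕ)
    (u : ℕ → ℝ) (y : List ℕ), m ≤ m' → Hit Z N m x u y → Hit Z N' m' x u y := by
  induction m with
  | zero =>
    intro m' x u y _ h
    obtain ⟨h1, h2⟩ := h
    cases m' with
    | zero => exact ⟨h1.trans_le hN, h2⟩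
    | succ m' => exact ⟨h1.trans_le hN, Or.inl h2⟩
  | succ m ih =>
    intro m' x u y hm h
    obtain ⟨h1, h2⟩ := h
    cases m' with
    | zero => omega
    | succ m' =>
      refine ⟨h1.trans_le hN, ?_⟩
      rcases h2 with h2 | h2
      · exact Or.inl h2
      · exact Or.inr (ih m' _ _ _ (by omega) h2)

theorem activeN_mono (Z : Env) {N N' : ℕ} (hN : N ≤ N') (ω : Conf) (y : List ℕ)
    (h : ActiveN Z N ω y) : ActiveN Z N' ω y := by
  induction h with
  | root => exact ActiveN.root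
  | wake j _ hj hh ih => exact ActiveN.wake j ih hj (hit_mono Z hN N N' _ _ _ hN hh)

theorem walk_succ (Z : Env) (x : List ℕ) (u : ℕ → ℝ) (k : ℕ) :
    walk Z x u (k + 1) = walk Z (step Z x (u 0)) (fun i => u (i + 1)) k := by
  induction k with
  | zero => rfl
  | succ k ih =>
    change step Z (walk Z x u (k + 1)) (u (k + 1)) = _
    rw [ih]
    rfl

theorem walk_hit (Z : Env) (N : ℕ) (y : List ℕ) (k : ℕ) : ∀ (m : ℕ) (x : List ℕ) (u : ℕ → ℝ),
    k ≤ m → (∀ i ≤ k, (walk Z x u i).length < N) → walk Z x u k = y → Hit Z N m x u y := by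
  induction k with
  | zero =>
    intro m x u _ hl hw
    have h1 : x.length < N := hl 0 le_rfl
    have h2 : x = y := hw
    cases m with
    | zero => exact ⟨h1, h2⟩
    | succ m => exact ⟨h1, Or.inl h2⟩
  | succ k ih =>
    intro m x u hm hl hw
    have h1 : x.length < N := hl 0 (Nat.zero_le _)
    cases m with
    | zero => omega
    | succ m =>
      refine ⟨h1, Or.inr (ih m _ _ (by omega) (fun i hi => ?_) ?_)⟩
      · rw [← walk_succ]
        exact hl (i + 1) (by omega)
      · rw [← walk_succ]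
        exact hw

theorem walk_hit_large (Z : Env) (x y : List ℕ) (u : ℕ → ℝ) (k : ℕ) (h : walk Z x u k = y) :
    ∃ N₀, ∀ N, N₀ ≤ N → Hit Z N N x u y := by
  refine ⟨k + 1 + ∑ i ∈ Finset.range (k + 1), (walk Z x u i).length, fun N hN => ?_⟩
  refine walk_hit Z N y k N x u (by omega) (fun i hi => ?_) h
  have h1 := Finset.single_le_sum (f := fun i => (walk Z x u i).length)
    (fun _ _ => Nat.zero_le _) (Finset.mem_range.2 (by omega : i < k + 1))
  omega

theorem active_large (Z : Env) (ω : Conf) (y : List ℕ) (h : Active Z ω y) :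
    ∃ N₀, ∀ N, N₀ ≤ N → ActiveN Z N ω y := by
  induction h with
  | root => exact ⟨0, fun _ _ => ActiveN.root⟩
  | @wake x y j k _ hj hw ih =>
    obtain ⟨N₁, h1⟩ := ih
    obtain ⟨N₂, h2⟩ := walk_hit_large Z x y _ k hw
    refine ⟨max N₁ N₂, fun N hN => ?_⟩
    exact ActiveN.wake j (h1 N ((le_max_left _ _).trans hN)) hj
      (h2 N ((le_max_right _ _).trans hN))

/-! ### the tree -/

theorem cons_mem_lev (Z : Env) (n i : ℕ) (u : List ℕ) :
    i :: u ∈ lev Z (n + 1) ↔ u ∈ lev Z n ∧ i < Z u := by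
  simp only [lev, Finset.mem_biUnion, Finset.mem_image, Finset.mem_range, List.cons.injEq]
  constructor
  · rintro ⟨v, hv, j, hj, rfl, rfl⟩
    exact ⟨hv, hj⟩
  · rintro ⟨h1, h2⟩
    exact ⟨u, h1, i, h2, rfl, rfl⟩

theorem step_mem (Z : Env) (hZ : 1 ≤ Z []) (x : List ℕ) (s : ℝ) (hx : x ∈ lev Z x.length) :
    step Z x s ∈ lev Z (step Z x s).length := by
  cases x with
  | nil =>
    change [min ⌊s * (Z [] : ℝ)⌋₊ (Z [] - 1)] ∈ lev Z (0 + 1)
    rw [cons_mem_lev]
    refine ⟨by simp [lev], ?_⟩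
    have := min_le_right ⌊s * (Z [] : ℝ)⌋₊ (Z [] - 1)
    omega
  | cons i v =>
    have e : step Z (i :: v) s = if ⌊s * ((Z (i :: v) : ℝ) + 1)⌋₊ < Z (i :: v)
      then ⌊s * ((Z (i :: v) : ℝ) + 1)⌋₊ :: i :: v else v := rfl
    rw [e]
    split_ifs with h
    · change _ ∈ lev Z ((i :: v).length + 1)
      rw [cons_mem_lev]
      exact ⟨hx, h⟩
    · change i :: v ∈ lev Z (v.length + 1) at hx
      rw [cons_mem_lev] at hx
      exact hx.1

theorem walk_mem (Z : Env) (hZ : 1 ≤ Z []) (x : List ℕ) (u : ℕ → ℝ) (hx : x ∈ lev Z x.length)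
    (k : ℕ) : walk Z x u k ∈ lev Z (walk Z x u k).length := by
  induction k with
  | zero => exact hx
  | succ k ih => exact step_mem Z hZ _ _ ih

theorem active_mem (Z : Env) (hZ : 1 ≤ Z []) (ω : Conf) (y : List ℕ) (h : Active Z ω y) :
    y ∈ lev Z y.length := by
  induction h with
  | root => simp [lev]
  | @wake x y j k _ hj hw ih =>
    rw [← hw]
    exact walk_mem Z hZ x _ ih k

theorem vert_mono (Z : Env) {N N' : ℕ} (h : N ≤ N') : vert Z N ⊆ vert Z N' :=
  Finset.biUnion_subset_biUnion_of_subset_left _ (Finset.range_subset_range.2 h)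

theorem mem_vert (Z : Env) (N : ℕ) (y : List ℕ) (h : y ∈ lev Z y.length) (hN : y.length < N) :
    y ∈ vert Z N :=
  Finset.mem_biUnion.2 ⟨y.length, Finset.mem_range.2 hN, h⟩

/-! ### the counted pairs -/

/-- the pair `q` is counted -/
def cond (Z : Env) (N : ℕ) (ω : Conf) (q : List ℕ × ℕ) : Prop :=
  q.1 ∈ vert Z N ∧ ActiveN Z N ω q.1 ∧ q.2 < cnt q.1 (ω q.1) ∧
    Hit Z N N q.1 ((ω q.1).2 q.2) []

theorem cond_mono (Z : Env) {N N' : ℕ} (hN : N ≤ N') (ω : Conf) (q : List ℕ × ℕ)
    (h : cond Z N ω q) : cond Z N' ω q :=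
  ⟨vert_mono Z hN h.1, activeN_mono Z hN ω _ h.2.1, h.2.2.1,
    hit_mono Z hN N N' _ _ _ hN h.2.2.2⟩

theorem VN_eq (Z : Env) (N : ℕ) (ω : Conf) :
    VN Z N ω = ∑' q : List ℕ × ℕ, if cond Z N ω q then (1 : ℝ≥0∞) else 0 := by
  rw [ENNReal.tsum_prod']
  have h1 : ∀ z : List ℕ, ∑' j : ℕ, (if cond Z N ω (z, j) then (1 : ℝ≥0∞) else 0) =
      if z ∈ vert Z N then (if ActiveN Z N ω z then
        ∑ j ∈ Finset.range (cnt z (ω z)), (if Hit Z N N z ((ω z).2 j) [] then 1 else 0) else 0)
      else 0 := by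
    intro z
    by_cases hz : z ∈ vert Z N
    · by_cases ha : ActiveN Z N ω z
      · rw [if_pos hz, if_pos ha, tsum_eq_sum (s := Finset.range (cnt z (ω z)))]
        · refine Finset.sum_congr rfl fun j hj => ?_
          have : cond Z N ω (z, j) ↔ Hit Z N N z ((ω z).2 j) [] :=
            ⟨fun h => h.2.2.2, fun h => ⟨hz, ha, Finset.mem_range.1 hj, h⟩⟩
          simp only [this]
        · intro j hj
          rw [if_neg]
          intro h
          exact hj (Finset.mem_range.2 h.2.2.1)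
      · rw [if_pos hz, if_neg ha, ENNReal.tsum_eq_zero]
        intro j
        rw [if_neg]
        exact fun h => ha h.2.1
    · rw [if_neg hz, ENNReal.tsum_eq_zero]
      intro j
      rw [if_neg]
      exact fun h => hz h.1
  rw [tsum_congr h1, tsum_eq_sum (s := vert Z N)]
  · unfold VN
    refine Finset.sum_congr rfl fun z hz => ?_
    rw [if_pos hz]
  · intro z hz
    rw [if_neg hz]

theorem VN_mono (Z : Env) {N N' : ℕ} (hN : N ≤ N') (ω : Conf) : VN Z N ω ≤ VN Z N' ω := by
  rw [VN_eq, VN_eq]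
  refine ENNReal.tsum_le_tsum fun q => ?_
  by_cases h : cond Z N ω q
  · rw [if_pos h, if_pos (cond_mono Z hN ω q h)]
  · rw [if_neg h]
    exact bot_le

/-! ### measurability -/

theorem meas_hit (hM : TaskMeas) (Z : Env) (N : ℕ) (x : List ℕ) (j : ℕ) (y : List ℕ) :
    MeasurableSet {ω : Conf | Hit Z N N x ((ω x).2 j) y} := by
  have h1 : Measurable fun ω : Conf => (ω x).2 j :=
    (measurable_pi_apply j).comp (measurable_snd.comp (measurable_pi_apply x))
  exact h1 (hM.1 Z N N x y)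

theorem meas_cnt (x : List ℕ) (j : ℕ) : MeasurableSet {ω : Conf | j < cnt x (ω x)} := by
  cases x with
  | nil =>
    by_cases h : j < 1
    · have : {ω : Conf | j < cnt [] (ω [])} = Set.univ := by
        ext ω
        simp [cnt]
        omega
      rw [this]
      exact MeasurableSet.univ
    · have : {ω : Conf | j < cnt [] (ω [])} = ∅ := by
        ext ω
        simp [cnt]
        omega
      rw [this]
      exact MeasurableSet.empty
  | cons i v =>
    have h1 : Measurable fun ω : Conf => (ω (i :: v)).1 :=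
      measurable_fst.comp (measurable_pi_apply (i :: v))
    exact h1 (measurableSet_Ioi (a := j))

/-- generations of the activation process -/
def gen (Z : Env) (N : ℕ) (ω : Conf) : ℕ → List ℕ → Prop
  | 0, y => y = []
  | n + 1, y => ∃ x : List ℕ, ∃ j : ℕ, gen Z N ω n x ∧ (y = x ∨ (j < cnt x (ω x) ∧
      Hit Z N N x ((ω x).2 j) y))

theorem gen_iff (Z : Env) (N : ℕ) (ω : Conf) (y : List ℕ) :
    ActiveN Z N ω y ↔ ∃ n, gen Z N ω n y := by
  constructor
  · intro h
    induction h with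
    | root => exact ⟨0, rfl⟩
    | @wake x y j _ hj hh ih =>
      obtain ⟨n, hn⟩ := ih
      exact ⟨n + 1, x, j, hn, Or.inr ⟨hj, hh⟩⟩
  · rintro ⟨n, hn⟩
    induction n generalizing y with
    | zero =>
      have : y = [] := hn
      rw [this]
      exact ActiveN.root
    | succ n ih =>
      obtain ⟨x, j, h1, h2⟩ := hn
      have h3 := ih x h1
      rcases h2 with rfl | ⟨h4, h5⟩
      · exact h3
      · exact ActiveN.wake j h3 h4 h5

theorem meas_gen (hM : TaskMeas) (Z : Env) (N n : ℕ) :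
    ∀ y, MeasurableSet {ω : Conf | gen Z N ω n y} := by
  induction n with
  | zero =>
    intro y
    by_cases h : y = []
    · have : {ω : Conf | gen Z N ω 0 y} = Set.univ := by
        ext ω
        simp [gen, h]
      rw [this]
      exact MeasurableSet.univ
    · have : {ω : Conf | gen Z N ω 0 y} = ∅ := by
        ext ω
        simp [gen, h]
      rw [this]
      exact MeasurableSet.empty
  | succ n ih =>
    intro y
    have : {ω : Conf | gen Z N ω (n + 1) y} = ⋃ x : List ℕ, ⋃ j : ℕ,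
        ({ω : Conf | gen Z N ω n x} ∩ ({ω : Conf | y = x} ∪
          ({ω : Conf | j < cnt x (ω x)} ∩ {ω : Conf | Hit Z N N x ((ω x).2 j) y}))) := by
      ext ω
      simp only [gen, Set.mem_ofPred_eq, Set.mem_iUnion, Set.mem_inter_iff, Set.mem_union]
    rw [this]
    refine MeasurableSet.iUnion fun x => MeasurableSet.iUnion fun j => ?_
    exact (ih x).inter ((MeasurableSet.const _).union ((meas_cnt x j).inter
      (meas_hit hM Z N x j y)))

theorem meas_active (hM : TaskMeas) (Z : Env) (N : ℕ) (y : List ℕ) :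
    MeasurableSet {ω : Conf | ActiveN Z N ω y} := by
  have : {ω : Conf | ActiveN Z N ω y} = ⋃ n : ℕ, {ω : Conf | gen Z N ω n y} := by
    ext ω
    simp only [Set.mem_ofPred_eq, Set.mem_iUnion]
    exact gen_iff Z N ω y
  rw [this]
  exact MeasurableSet.iUnion fun n => meas_gen hM Z N n y

theorem meas_cond (hM : TaskMeas) (Z : Env) (N : ℕ) (q : List ℕ × ℕ) :
    MeasurableSet {ω : Conf | cond Z N ω q} := by
  have : {ω : Conf | cond Z N ω q} = {ω : Conf | q.1 ∈ vert Z N} ∩
      ({ω : Conf | ActiveN Z N ω q.1} ∩ ({ω : Conf | q.2 < cnt q.1 (ω q.1)} ∩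
        {ω : Conf | Hit Z N N q.1 ((ω q.1).2 q.2) []})) := by
    ext ω
    simp only [cond, Set.mem_ofPred_eq, Set.mem_inter_iff]
  rw [this]
  exact (MeasurableSet.const _).inter ((meas_active hM Z N q.1).inter
    ((meas_cnt q.1 q.2).inter (meas_hit hM Z N q.1 q.2 [])))

theorem meas_VN (hM : TaskMeas) (Z : Env) (N : ℕ) : Measurable fun ω => VN Z N ω := by
  simp only [VN_eq]
  exact Measurable.ennreal_tsum fun q =>
    Measurable.ite (meas_cond hM Z N q) measurable_const measurable_const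

theorem lim (hM : TaskMeas) : TaskLim := by
  intro lam Z hZ hC
  obtain ⟨C, hC⟩ := hC
  have hmono : Monotone fun (N : ℕ) (ω : Conf) => VN Z N ω := fun N N' h ω => VN_mono Z h ω
  have hbd : ∀ N, ∫⁻ ω, VN Z N ω ∂(FM lam) ≤ C := by
    intro N
    obtain ⟨N', h1, h2⟩ := (frequently_atTop.1 hC) N
    exact (lintegral_mono (fun ω => VN_mono Z h1 ω)).trans h2
  have hsup : ∫⁻ ω, ⨆ N, VN Z N ω ∂(FM lam) ≤ C := by
    rw [lintegral_iSup (fun N => meas_VN hM Z N) hmono]
    exact iSup_le hbd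
  have hfin : ∀ᵐ ω ∂(FM lam), ⨆ N, VN Z N ω < ∞ := by
    refine ae_lt_top (Measurable.iSup fun N => meas_VN hM Z N) ?_
    exact (hsup.trans_lt ENNReal.coe_lt_top).ne
  unfold Transient
  filter_upwards [hfin] with ω hω
  by_contra hinf
  obtain ⟨n, hn⟩ := ENNReal.exists_nat_gt hω.ne
  obtain ⟨F, hF, hFc⟩ := Set.Infinite.exists_subset_card_eq hinf n
  have hev : ∀ q ∈ F, ∀ᶠ N : ℕ in atTop, cond Z N ω q := by
    intro q hq
    obtain ⟨h1, h2, k, h3⟩ := hF hq
    obtain ⟨N₁, hN₁⟩ := active_large Z ω _ h1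
    obtain ⟨N₂, hN₂⟩ := walk_hit_large Z _ _ _ k h3
    filter_upwards [eventually_ge_atTop N₁, eventually_ge_atTop N₂,
      eventually_gt_atTop q.1.length] with N g1 g2 g3
    exact ⟨mem_vert Z N _ (active_mem Z hZ ω _ h1) g3, hN₁ N g1, h2, hN₂ N g2⟩
  have hev2 : ∀ᶠ N : ℕ in atTop, ∀ q ∈ F, cond Z N ω q :=
    (Filter.eventually_all_finset F).2 hev
  obtain ⟨N, hN⟩ := hev2.exists
  have h1 : (n : ℝ≥0∞) ≤ VN Z N ω := by
    rw [VN_eq]
    refine le_trans ?_ (ENNReal.sum_le_tsum F)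
    rw [Finset.sum_congr rfl (fun q hq => if_pos (hN q hq)), Finset.sum_const, hFc, nsmul_eq_mul,
      mul_one]
  exact absurd (h1.trans (le_iSup (fun N => VN Z N ω) N)) (not_le.2 hn)

end Pool.Agent.W363.FG
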