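import Pool.Agent.W852.FG.Stms

/-!
# FG-MOMX: the first moment
-/

namespace Pool.Agent.W363.FG

open MeasureTheory ProbabilityTheory Filter FrogGW
open scoped ENNReal NNReal Classical Topology

theorem pw (b ε : ℝ) (r : ℕ) (hr : 1 ≤ r) (hε : 0 < ε) (hb : 0 ≤ b) :
    b ≤ ε * b ^ (2 * r) + max 1 ε⁻¹ := by
  by_cases h : b ≤ max 1 ε⁻¹
  · have : 0 ≤ ε * b ^ (2 * r) := by positivity
    linarith
  · rw [not_le, max_lt_iff] at h
    obtain ⟨h1, h2⟩ := h
    have h3 : b ^ 2 ≤ b ^ (2 * r) := pow_le_pow_right₀ h1.le (by omega)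
    have h4 : 1 ≤ ε * b := by
      rw [inv_lt_iff_one_lt_mul₀ hε] at h2
      linarith
    have h5 : b ≤ ε * b ^ 2 := by nlinarith
    have h6 : ε * b ^ 2 ≤ ε * b ^ (2 * r) := mul_le_mul_of_nonneg_left h3 hε.le
    have h7 : (1 : ℝ) ≤ max 1 ε⁻¹ := le_max_left _ _
    linarith

theorem core (γ t A Φ ε K : ℝ) (r : ℕ) (hr : 1 ≤ r) (hγ : 0 < γ) (ht : 0 < t) (hA : 0 ≤ A)
    (hΦ : 0 ≤ Φ) (hε : 0 < ε) (hK : 0 < K) :
    (if A ≤ γ * Φ then 0 else A / (1 + Φ)) ≤ (if Φ = 0 then A else 0) +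
      (ε * K⁻¹ ^ (2 * r - 1) + ((γ * t / (1 + t))⁻¹) ^ (2 * r - 1)) * (A / (1 + Φ)) ^ (2 * r) +
      max 1 ε⁻¹ * K * (if 0 < Φ ∧ Φ < t then 1 else 0) := by
  set W : ℝ := A / (1 + Φ) with hW
  have hW0 : 0 ≤ W := by positivity
  set c1 : ℝ := ε * K⁻¹ ^ (2 * r - 1) with hc1
  have hc10 : 0 ≤ c1 := by positivity
  set ω : ℝ := γ * t / (1 + t) with hω
  have hω0 : 0 < ω := by positivity
  have hc20 : 0 ≤ ω⁻¹ ^ (2 * r - 1) := by positivity
  have hWr : 0 ≤ W ^ (2 * r) := by positivity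
  have hm : 0 ≤ max 1 ε⁻¹ * K := by positivity
  have hi1 : (0 : ℝ) ≤ (if 0 < Φ ∧ Φ < t then 1 else 0) := by split_ifs <;> norm_num
  have hi2 : (0 : ℝ) ≤ (if Φ = 0 then A else 0) := by split_ifs <;> linarith
  have hr1 : 2 * r = (2 * r - 1) + 1 := by omega
  by_cases h1 : A ≤ γ * Φ
  · rw [if_pos h1]
    positivity
  rw [if_neg h1, add_mul]
  have e1 : 0 ≤ c1 * W ^ (2 * r) := by positivity
  have e2 : 0 ≤ ω⁻¹ ^ (2 * r - 1) * W ^ (2 * r) := by positivity
  have e3 : 0 ≤ max 1 ε⁻¹ * K * (if 0 < Φ ∧ Φ < t then (1 : ℝ) else 0) := mul_nonneg hm hi1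
  rcases hΦ.eq_or_lt with h2 | h2
  · have h3 : W = A := by rw [hW, ← h2]; simp
    rw [if_pos h2.symm]
    linarith
  by_cases h3 : Φ < t
  · rw [if_pos (show 0 < Φ ∧ Φ < t from ⟨h2, h3⟩), mul_one]
    have h4 := pw (W / K) ε r hr hε (by positivity)
    have h5 : W ≤ (ε * (W / K) ^ (2 * r) + max 1 ε⁻¹) * K := by
      have := mul_le_mul_of_nonneg_right h4 hK.le
      rwa [div_mul_cancel₀ _ hK.ne'] at this
    have h6 : ε * (W / K) ^ (2 * r) * K = c1 * W ^ (2 * r) := by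
      have g1 : K⁻¹ ^ (2 * r) = K⁻¹ ^ (2 * r - 1) * K⁻¹ := by
        conv_lhs => rw [hr1]
        exact pow_succ _ _
      have g2 : K⁻¹ * K = 1 := inv_mul_cancel₀ hK.ne'
      rw [hc1, div_eq_mul_inv, mul_pow, g1]
      calc ε * (W ^ (2 * r) * (K⁻¹ ^ (2 * r - 1) * K⁻¹)) * K
          = ε * K⁻¹ ^ (2 * r - 1) * W ^ (2 * r) * (K⁻¹ * K) := by ring
        _ = ε * K⁻¹ ^ (2 * r - 1) * W ^ (2 * r) := by rw [g2, mul_one]
    rw [add_mul, h6] at h5
    linarith
  · rw [not_lt] at h3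
    rw [not_le] at h1
    have h4 : ω < W := by
      rw [hω, hW, div_lt_div_iff₀ (by positivity) (by positivity)]
      have : γ * t * (1 + Φ) ≤ γ * Φ * (1 + t) := by nlinarith
      have h5 : γ * Φ * (1 + t) < A * (1 + t) := by
        apply mul_lt_mul_of_pos_right h1 (by positivity)
      linarith
    have h5 : W ≤ ω⁻¹ ^ (2 * r - 1) * W ^ (2 * r) := by
      have h6 : 1 ≤ (ω⁻¹ * W) ^ (2 * r - 1) := by
        apply one_le_pow₀
        rw [inv_mul_eq_div, one_le_div hω0]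
        exact h4.le
      calc W = 1 * W := (one_mul W).symm
        _ ≤ (ω⁻¹ * W) ^ (2 * r - 1) * W := mul_le_mul_of_nonneg_right h6 hW0
        _ = ω⁻¹ ^ (2 * r - 1) * W ^ (2 * r) := by
            rw [mul_pow]
            conv_rhs => rw [hr1, pow_succ W]
            rw [show 2 * r - 1 + 1 - 1 = 2 * r - 1 by omega]
            ring
    linarith

variable {X : Type} [MeasurableSpace X]

theorem meas_sum (w : X → ℝ) (hw : Measurable w) (k : ℕ) :
    Measurable fun Y : ℕ → X => ∑ i ∈ Finset.range k, w (Y i) :=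
  Finset.measurable_fun_sum _ fun i _ => hw.comp (measurable_pi_apply i)

theorem small (μ : Measure X) [IsProbabilityMeasure μ] (w : X → ℝ) (γ : ℝ) (hw : Measurable w)
    (p : Measure ℕ) [IsProbabilityMeasure p] (η : ℝ≥0) (hη : 0 < η) : ∃ t : ℝ, 0 < t ∧
    ∫⁻ k, (Measure.infinitePi fun _ : ℕ => μ) {Y | 0 < γ * ∑ i ∈ Finset.range k, w (Y i) ∧
      γ * ∑ i ∈ Finset.range k, w (Y i) < t} ∂p ≤ η := by
  set P := Measure.infinitePi fun _ : ℕ => μ with hP
  set g : ℕ → ℕ → ℝ≥0∞ := fun n k => P {Y | 0 < γ * ∑ i ∈ Finset.range k, w (Y i) ∧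
      γ * ∑ i ∈ Finset.range k, w (Y i) < 1 / ((n : ℝ) + 1)} with hg
  have hmΦ : ∀ k, Measurable fun Y : ℕ → X => γ * ∑ i ∈ Finset.range k, w (Y i) :=
    fun k => (meas_sum w hw k).const_mul γ
  have h1 : ∀ k, Tendsto (fun n => g n k) atTop (𝓝 0) := by
    intro k
    have h2 := tendsto_measure_iInter_atTop (μ := P)
      (s := fun n : ℕ => {Y : ℕ → X | 0 < γ * ∑ i ∈ Finset.range k, w (Y i) ∧
        γ * ∑ i ∈ Finset.range k, w (Y i) < 1 / ((n : ℝ) + 1)})
      (fun n => ((measurableSet_lt measurable_const (hmΦ k)).inter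
        (measurableSet_lt (hmΦ k) measurable_const)).nullMeasurableSet)
      (fun n m hnm Y hY => ⟨hY.1, hY.2.trans_le (one_div_le_one_div_of_le (by positivity)
        (by have : (n : ℝ) ≤ m := by exact_mod_cast hnm
            linarith))⟩)
      ⟨0, measure_ne_top _ _⟩
    have h3 : (⋂ n : ℕ, {Y : ℕ → X | 0 < γ * ∑ i ∈ Finset.range k, w (Y i) ∧
        γ * ∑ i ∈ Finset.range k, w (Y i) < 1 / ((n : ℝ) + 1)}) = ∅ := by
      rw [Set.eq_empty_iff_forall_notMem]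
      intro Y hY
      rw [Set.mem_iInter] at hY
      obtain ⟨n, hn⟩ := exists_nat_one_div_lt (hY 0).1
      exact absurd (hY n).2 (not_lt.2 hn.le)
    rw [h3, measure_empty] at h2
    exact h2
  have h4 : Tendsto (fun n => ∫⁻ k, g n k ∂p) atTop (𝓝 (∫⁻ _, 0 ∂p)) := by
    refine tendsto_lintegral_of_dominated_convergence (fun _ => 1)
      (fun n => Measurable.of_discrete) (fun n => Eventually.of_forall fun k => prob_le_one)
      (by simp) (Eventually.of_forall h1)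
  rw [lintegral_zero] at h4
  have h5 : ∀ᶠ n in atTop, ∫⁻ k, g n k ∂p < η :=
    h4.eventually (gt_mem_nhds (by exact_mod_cast hη))
  obtain ⟨n, hn⟩ := h5.exists
  exact ⟨1 / ((n : ℝ) + 1), by positivity, hn.le⟩

theorem momX (hInd : TaskInd) : TaskMomX := by
  intro X _ μ _ w γ hw hw01 hγ p _ r hr
  refine ⟨fun ε => max 1 ε⁻¹, fun η hη => ?_⟩
  obtain ⟨t, ht, htη⟩ := small μ w γ hw p η hη
  set P := Measure.infinitePi fun _ : ℕ => μ with hP
  set D : ℝ≥0 := Real.toNNReal (((γ * t / (1 + t))⁻¹) ^ (2 * r - 1)) with hD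
  have hDr : (D : ℝ) = ((γ * t / (1 + t))⁻¹) ^ (2 * r - 1) := by
    rw [hD, Real.coe_toNNReal _ (by positivity)]
  refine ⟨D, fun a lam K hK ε hε ha ha0 => ?_⟩
  obtain ⟨-, -, hI3, -⟩ := hInd X μ w a γ hw ha hw01 ha0 hγ
  set κ : ℝ≥0 := ε * K⁻¹ ^ (2 * r - 1) + D with hκ
  set bd : ℝ≥0 := max 1 ε⁻¹ * K with hbd
  -- pointwise
  have hpt : ∀ (k : ℕ) (Y : ℕ → X), ENNReal.ofReal (na lam γ a w k Y) ≤
      ((lam : ℝ≥0∞) + ENNReal.ofReal (if ∀ i < k, w (Y i) = 0 then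
        ∑ i ∈ Finset.range k, a (Y i) else 0)) +
      (κ : ℝ≥0∞) * ENNReal.ofReal (Wf lam γ a w k Y ^ (2 * r)) +
      (bd : ℝ≥0∞) * Set.indicator {Y | 0 < γ * ∑ i ∈ Finset.range k, w (Y i) ∧
        γ * ∑ i ∈ Finset.range k, w (Y i) < t} 1 Y := by
    intro k Y
    set A : ℝ := lam + ∑ i ∈ Finset.range k, a (Y i) with hA
    set Φ : ℝ := γ * ∑ i ∈ Finset.range k, w (Y i) with hΦ
    have hsa : 0 ≤ ∑ i ∈ Finset.range k, a (Y i) := Finset.sum_nonneg fun i _ => ha0 _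
    have hsw : 0 ≤ ∑ i ∈ Finset.range k, w (Y i) := Finset.sum_nonneg fun i _ => (hw01 _).1
    have hA0 : 0 ≤ A := by positivity
    have hΦ0 : 0 ≤ Φ := by positivity
    have h1 := core γ t A Φ ε K r hr hγ ht hA0 hΦ0 (by exact_mod_cast hε) (by exact_mod_cast hK)
    have h2 : na lam γ a w k Y = (if A ≤ γ * Φ then 0 else A / (1 + Φ)) := rfl
    have h3 : (if Φ = 0 then A else 0) ≤ (lam : ℝ) + (if ∀ i < k, w (Y i) = 0 then
        ∑ i ∈ Finset.range k, a (Y i) else 0) := by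
      by_cases h4 : Φ = 0
      · have h5 : ∑ i ∈ Finset.range k, w (Y i) = 0 := by
          rcases mul_eq_zero.1 h4 with h6 | h6
          · exact absurd h6 hγ.ne'
          · exact h6
        rw [Finset.sum_eq_zero_iff_of_nonneg (fun i _ => (hw01 _).1)] at h5
        rw [if_pos h4, if_pos (fun i hi => h5 i (Finset.mem_range.2 hi))]
      · rw [if_neg h4]
        have : (0 : ℝ) ≤ (if ∀ i < k, w (Y i) = 0 then
          ∑ i ∈ Finset.range k, a (Y i) else 0) := by split_ifs <;> simp [hsa]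
        positivity
    have h7 : (κ : ℝ) = ε * (K : ℝ)⁻¹ ^ (2 * r - 1) + ((γ * t / (1 + t))⁻¹) ^ (2 * r - 1) := by
      rw [hκ, ← hDr]
      push_cast
      ring
    have h8 : (bd : ℝ) = max 1 (ε : ℝ)⁻¹ * K := by
      rw [hbd]
      push_cast
      ring
    have h9 : na lam γ a w k Y ≤ ((lam : ℝ) + (if ∀ i < k, w (Y i) = 0 then
        ∑ i ∈ Finset.range k, a (Y i) else 0)) + κ * Wf lam γ a w k Y ^ (2 * r) +
        bd * (if 0 < Φ ∧ Φ < t then 1 else 0) := by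
      rw [h2, h7, h8]
      have h10 : Wf lam γ a w k Y = A / (1 + Φ) := rfl
      rw [h10]
      linarith
    refine (ENNReal.ofReal_le_ofReal h9).trans ?_
    have hite : (0 : ℝ) ≤ (if ∀ i < k, w (Y i) = 0 then
          ∑ i ∈ Finset.range k, a (Y i) else 0) := by split_ifs <;> simp [hsa]
    refine ENNReal.ofReal_add_le.trans (add_le_add (ENNReal.ofReal_add_le.trans (add_le_add
      (ENNReal.ofReal_add_le.trans (le_of_eq ?_)) (le_of_eq ?_))) (le_of_eq ?_))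
    · rw [ENNReal.ofReal_coe_nnreal]
    · rw [ENNReal.ofReal_mul (NNReal.coe_nonneg κ)]
      congr 1
      exact ENNReal.ofReal_coe_nnreal
    · rw [ENNReal.ofReal_mul (NNReal.coe_nonneg bd)]
      congr 1
      · exact ENNReal.ofReal_coe_nnreal
      · by_cases hh : 0 < Φ ∧ Φ < t
        · rw [if_pos hh, Set.indicator_of_mem (by exact hh)]
          simp
        · rw [if_neg hh, Set.indicator_of_notMem (by exact hh)]
          simp
  have hmW : ∀ k, Measurable fun Y : ℕ → X => ENNReal.ofReal (Wf lam γ a w k Y ^ (2 * r)) := by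
    intro k
    refine ENNReal.measurable_ofReal.comp (Measurable.pow_const ?_ _)
    exact (measurable_const.add (meas_sum a ha k)).div
      (measurable_const.add ((meas_sum w hw k).const_mul γ))
  have hmS : ∀ k, MeasurableSet {Y : ℕ → X | 0 < γ * ∑ i ∈ Finset.range k, w (Y i) ∧
      γ * ∑ i ∈ Finset.range k, w (Y i) < t} := fun k =>
    (measurableSet_lt measurable_const ((meas_sum w hw k).const_mul γ)).inter
      (measurableSet_lt ((meas_sum w hw k).const_mul γ) measurable_const)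
  have hY : ∀ k, ∫⁻ Y, ENNReal.ofReal (na lam γ a w k Y) ∂P ≤
      ((lam : ℝ≥0∞) + (k : ℝ≥0∞) * μ {x | w x = 0} ^ (k - 1) *
          ∫⁻ x in {x | w x = 0}, ENNReal.ofReal (a x) ∂μ) +
      (κ : ℝ≥0∞) * ∫⁻ Y, ENNReal.ofReal (Wf lam γ a w k Y ^ (2 * r)) ∂P +
      (bd : ℝ≥0∞) * P {Y | 0 < γ * ∑ i ∈ Finset.range k, w (Y i) ∧
        γ * ∑ i ∈ Finset.range k, w (Y i) < t} := by
    intro k
    refine (lintegral_mono (hpt k)).trans (le_of_eq ?_)
    rw [lintegral_add_right _ ((measurable_one.indicator (hmS k)).const_mul _),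
      lintegral_add_right _ ((hmW k).const_mul _), lintegral_add_left measurable_const,
      lintegral_const, measure_univ, mul_one, hI3 k, lintegral_const_mul _ (hmW k),
      lintegral_const_mul _ (measurable_one.indicator (hmS k)), lintegral_indicator_one (hmS k)]
  refine (lintegral_mono hY).trans ?_
  rw [lintegral_add_right _ Measurable.of_discrete, lintegral_add_right _ Measurable.of_discrete,
    lintegral_add_left measurable_const, lintegral_const, measure_univ, mul_one,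
    lintegral_const_mul _ Measurable.of_discrete, lintegral_const_mul _ Measurable.of_discrete,
    lintegral_mul_const _ Measurable.of_discrete]
  have e1 : ∫⁻ k : ℕ, (k : ℝ≥0∞) * μ {x | w x = 0} ^ (k - 1) ∂p =
      ∑' k, p {k} * ((k : ℝ≥0∞) * μ {x | w x = 0} ^ (k - 1)) := by
    rw [lintegral_countable']
    exact tsum_congr fun k => mul_comm _ _
  have e2 : (κ : ℝ≥0∞) = (ε : ℝ≥0∞) * (K : ℝ≥0∞)⁻¹ ^ (2 * r - 1) + D := by
    rw [hκ]
    push_cast
    rw [ENNReal.coe_inv hK.ne']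
  have e3 : (bd : ℝ≥0∞) = ((max 1 ε⁻¹ : ℝ≥0) : ℝ≥0∞) * K := by
    rw [hbd]
    push_cast
    rfl
  rw [e1, e2, e3]
  gcongr

end Pool.Agent.W363.FG
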